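import Pool.Agent.H2.AC.Blk
import Pool.Agent.H58.CE.Side2
import Pool.Agent.H58.CD.Sets
import Pool.Agent.H58.CD.Rand

/-! # [H91 AC Law] The planted law and the random law for a family of circuits

For a fixed input `z` and a circuit whose output is true at `z`, the output stays true when an
orthogonal pair is planted at random positions, unless (1) the change of one of the two vectors
alone changes the output (few positions), or (2) some gate depends on both changes (few pairs of
positions, for independent new vectors; `side2` compares them with the planted pair). -/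

set_option autoImplicit false
set_option maxHeartbeats 4000000

namespace Pool.Agent.H91.AC

open Pool.Agent.H58.OVAC Pool.Agent.H58.OVPR Pool.Agent.H58.OVT Pool.Agent.H58.CD
  Pool.Agent.H58.CE Pool.Agent.H2.AC

/-- the value of a gate is a function of its first false literal -/
theorem val_eq_first {ι Ω : Type} [Fintype ι] {s T : ℕ} (N : Net ι Ω s T) (g : Fin s) (x : Ω) :
    N.val g x = (N.first g x).isNone := by
  have h2 := N.first_eq_none_iff g x
  cases h3 : N.first g x with
  | none =>
    rw [h3] at h2
    simpa using h2.1 rfl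
  | some q =>
    rw [h3] at h2
    cases h4 : N.val g x with
    | false => rfl
    | true => exact absurd (h2.2 h4) (by simp)

/-- many blocks matter for the output, or many pairs of blocks matter for a gate of `I` -/
def EX {ι V K X : Type} [Fintype ι] [Fintype K] [DecidableEq V] {s T : ℕ} (N : Net ι (V → X) s T)
    (blk : V → K) (F : Finset V) (o : Fin s) (I : Finset (Fin s)) (A B : ℕ) (z z' : V → X) : Prop :=
  A < sens (fun ρ : K → Bool => N.first o (bpt blk F z z' ρ)) (fun _ => false) ∨
    B < pf I (fun g (ρ : K → Bool) => N.first g (bpt blk F z z' ρ)) (fun _ => false)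

section points

variable {n D : ℕ} {X : Type}

/-- the block of a coordinate: its vector -/
def vec (p : Co n D) : Bool × Fin n := p.1

theorem bpv_zero (z z' : Co n D → X) :
    bpt (vec (n := n) (D := D)) ∅ z z' (fun _ => false) = z := by
  funext p
  simp [bpt]

theorem bpv_one (z z' : Co n D → X) (q : Bool × Fin n) :
    bpt (vec (n := n) (D := D)) ∅ z z' (Pool.Agent.H58.OVPR.flip (fun _ => false) q) =
      pos z q fun c => z' (q, c) := by
  classical
  funext p
  obtain ⟨p, c⟩ := p
  by_cases h : p = q
  · subst h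
    simp [bpt, vec, pos, Pool.Agent.H58.OVPR.flip]
  · simp [bpt, vec, pos, Pool.Agent.H58.OVPR.flip, h]

theorem bpv_two (z z' : Co n D → X) (i j : Fin n) :
    bpt (vec (n := n) (D := D)) ∅ z z' (Pool.Agent.H58.OVPR.flip
      (Pool.Agent.H58.OVPR.flip (fun _ => false) (false, i)) (true, j)) =
      plant z i j (fun c => z' ((false, i), c)) fun c => z' ((true, j), c) := by
  classical
  funext p
  obtain ⟨p, c⟩ := p
  by_cases h : p = (false, i)
  · subst h
    simp [bpt, vec, plant, Pool.Agent.H58.OVPR.flip]
  · by_cases h' : p = (true, j)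
    · subst h'
      simp [bpt, vec, plant, Pool.Agent.H58.OVPR.flip]
    · simp [bpt, vec, plant, Pool.Agent.H58.OVPR.flip, h, h']

/-- the coordinates of a vector -/
private def sA (n D : ℕ) (q : Bool × Fin n) : Finset (Co n D) :=
  Finset.univ.filter fun p => p.1 = q

private theorem mem_sA {q : Bool × Fin n} {p : Co n D} : p ∈ sA n D q ↔ p.1 = q := by
  unfold sA
  rw [Finset.mem_filter]
  exact ⟨fun h => h.2, fun h => ⟨Finset.mem_univ _, h⟩⟩

private theorem pt1 (z : Co n D → X) (i j : Fin n) (u v : Fin D → X) :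
    mix (sA n D (false, i)) (plant z i j u v) z = pos z (false, i) u := by
  funext p
  by_cases h : p.1 = (false, i)
  · simp [mix, mem_sA, pos, plant, h]
  · simp [mix, mem_sA, pos, h]

private theorem pt2 (z : Co n D → X) (i j : Fin n) (u v : Fin D → X) :
    mix (sA n D (true, j)) (plant z i j u v) z = pos z (true, j) v := by
  funext p
  by_cases h : p.1 = (true, j)
  · simp [mix, mem_sA, pos, plant, h]
  · simp [mix, mem_sA, pos, h]

private theorem pt3 (z : Co n D → X) (i j : Fin n) (u v : Fin D → X) :
    mix (sA n D (false, i) ∪ sA n D (true, j)) (plant z i j u v) z = plant z i j u v := by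
  funext p
  by_cases h : p.1 = (false, i)
  · simp [mix, mem_sA, plant, h]
  · by_cases h' : p.1 = (true, j)
    · simp [mix, mem_sA, plant, h']
    · simp [mix, mem_sA, plant, h, h']

private theorem sA_list {q : Bool × Fin n} : ∀ p ∈ sA n D q, p.1.1 = q.1 := by
  intro p hp
  rw [mem_sA] at hp
  rw [hp]

theorem uni_inp {Y : Type} {f : (Co n D → X) → Y} (hf : DepOne f) (z : Co n D → X) (i j : Fin n)
    (u v : Fin D → X) : Uni f z (pos z (false, i) u) (pos z (true, j) v) (plant z i j u v) := by
  have h := uni_of_depOne hf (disj_lists (A := sA n D (false, i)) (B := sA n D (true, j))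
    (fun p hp => sA_list p hp) (fun p hp => sA_list p hp)) z (plant z i j u v)
  rwa [pt1, pt2, pt3] at h

theorem uni_one {Y : Type} {f : (Co n D → X) → Y} (hf : OneSided f) (z : Co n D → X)
    (i j : Fin n) (u v : Fin D → X) :
    Uni f z (pos z (false, i) u) (pos z (true, j) v) (plant z i j u v) := by
  have h := uni_of_oneSided hf (A := sA n D (false, i)) (B := sA n D (true, j))
    (fun p hp => sA_list p hp) (fun p hp => sA_list p hp) z (plant z i j u v)
  rwa [pt1, pt2, pt3] at h

end points

section

variable {ι : Type} [Fintype ι] {n D s T k : ℕ}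

private theorem avR_inst (Φ : Str k D → Str k D → Prop) (i₁ i₂ : ∀ u v, Decidable (Φ u v)) :
    (avR fun u v => @ite ℝ (Φ u v) (i₁ u v) 1 0) = avR fun u v => @ite ℝ (Φ u v) (i₂ u v) 1 0 := by
  congr 1
  funext u v
  congr

/-- the single changes -/
theorem single (hk : 1 ≤ k) (N : Net ι (Co n D → Fin k) s T) (o : Fin s) (I : Finset (Fin s))
    (A B : ℕ) (z : Co n D → Fin k) :
    (∑ q : Bool × Fin n, pr fun u : Fin D → Fin k => N.val o (pos z q u) ≠ N.val o z) ≤
      A + 2 * n * pr fun z' : Co n D → Fin k => EX N vec ∅ o I A B z z' := by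
  classical
  have h0 : (∑ q : Bool × Fin n, pr fun u : Fin D → Fin k => N.val o (pos z q u) ≠ N.val o z) ≤
      ∑ q : Bool × Fin n, pr fun u : Fin D → Fin k => N.first o (pos z q u) ≠ N.first o z := by
    refine Finset.sum_le_sum fun q _ => pr_mono fun u h he => h ?_
    rw [val_eq_first, val_eq_first, he]
  refine h0.trans ?_
  have hX : Nonempty (Fin k) := ⟨⟨0, by omega⟩⟩
  have h1 : ∀ q : Bool × Fin n, (pr fun u : Fin D → Fin k => N.first o (pos z q u) ≠ N.first o z) =
      av fun z' : Co n D → Fin k => if N.first o (pos z q fun c => z' (q, c)) ≠ N.first o z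
        then (1 : ℝ) else 0 := by
    intro q
    rw [av_at q fun u => if N.first o (pos z q u) ≠ N.first o z then (1 : ℝ) else 0]
    unfold pr
    exact av_congr fun u => by congr
  rw [Finset.sum_congr rfl fun q _ => h1 q, ← av_sum]
  have h2 : (A : ℝ) + 2 * n * (pr fun z' : Co n D → Fin k => EX N vec ∅ o I A B z z') =
      av fun z' : Co n D → Fin k => (A : ℝ) + 2 * n * (if EX N vec ∅ o I A B z z'
        then (1 : ℝ) else 0) := by
    rw [av_add, av_const, av_mul_left]
    congr 2
  rw [h2]
  refine av_mono fun z' => ?_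
  have h3 : (∑ q : Bool × Fin n, if N.first o (pos z q fun c => z' (q, c)) ≠ N.first o z
      then (1 : ℝ) else 0) = (sens (fun ρ : Bool × Fin n → Bool =>
        N.first o (bpt vec ∅ z z' ρ)) (fun _ => false) : ℝ) := by
    unfold sens
    rw [Finset.sum_boole]
    congr 2
    ext q
    simp only [Finset.mem_filter, Finset.mem_univ, true_and]
    rw [bpv_one, bpv_zero]
  rw [h3]
  by_cases h4 : EX N vec ∅ o I A B z z'
  · rw [if_pos h4]
    have h5 : sens (fun ρ : Bool × Fin n → Bool => N.first o (bpt vec ∅ z z' ρ))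
        (fun _ => false) ≤ 2 * n := by
      unfold sens
      refine (Finset.card_le_univ _).trans (le_of_eq ?_)
      simp
    have h6 : (sens (fun ρ : Bool × Fin n → Bool => N.first o (bpt vec ∅ z z' ρ))
        (fun _ => false) : ℝ) ≤ 2 * n := by exact_mod_cast h5
    have h7 : (0 : ℝ) ≤ A := Nat.cast_nonneg _
    linarith
  · rw [if_neg h4, mul_zero, add_zero]
    unfold EX at h4
    push Not at h4
    exact_mod_cast h4.1

/-- the pairs, for independent new vectors -/
theorem pairs (hk : 1 ≤ k) (N : Net ι (Co n D → Fin k) s T) (o : Fin s) (I : Finset (Fin s))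
    (A B : ℕ) (z : Co n D → Fin k) :
    (∑ i : Fin n, ∑ j : Fin n, av fun u : Str k D => pr fun v : Str k D => ∃ g ∈ I,
      ¬ Uni (N.first g) z (pos z (false, i) u) (pos z (true, j) v) (plant z i j u v)) ≤
      B + (n : ℝ) ^ 2 * pr fun z' : Co n D → Fin k => EX N vec ∅ o I A B z z' := by
  classical
  have hX : Nonempty (Fin k) := ⟨⟨0, by omega⟩⟩
  have h1 : ∀ i j : Fin n, (av fun u : Str k D => pr fun v : Str k D => ∃ g ∈ I,
      ¬ Uni (N.first g) z (pos z (false, i) u) (pos z (true, j) v) (plant z i j u v)) =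
      av fun z' : Co n D → Fin k => if ∃ g ∈ I, ¬ Uni (N.first g) z
        (pos z (false, i) fun c => z' ((false, i), c)) (pos z (true, j) fun c => z' ((true, j), c))
        (plant z i j (fun c => z' ((false, i), c)) fun c => z' ((true, j), c))
        then (1 : ℝ) else 0 := by
    intro i j
    have hne : ((false, i) : Bool × Fin n) ≠ (true, j) := by simp
    rw [av_at2 hne fun u v => if ∃ g ∈ I, ¬ Uni (N.first g) z (pos z (false, i) u)
      (pos z (true, j) v) (plant z i j u v) then (1 : ℝ) else 0]
    unfold pr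
    exact av_congr fun u => av_congr fun v => by congr
  rw [Finset.sum_congr rfl fun i _ => Finset.sum_congr rfl fun j _ => h1 i j]
  rw [Finset.sum_congr rfl fun i _ => (av_sum Finset.univ _).symm, ← av_sum]
  have h2 : (B : ℝ) + (n : ℝ) ^ 2 * (pr fun z' : Co n D → Fin k => EX N vec ∅ o I A B z z') =
      av fun z' : Co n D → Fin k => (B : ℝ) + (n : ℝ) ^ 2 * (if EX N vec ∅ o I A B z z'
        then (1 : ℝ) else 0) := by
    rw [av_add, av_const, av_mul_left]
    congr 2
  rw [h2]
  refine av_mono fun z' => ?_
  have h3 : (∑ i : Fin n, ∑ j : Fin n, if ∃ g ∈ I, ¬ Uni (N.first g) z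
        (pos z (false, i) fun c => z' ((false, i), c)) (pos z (true, j) fun c => z' ((true, j), c))
        (plant z i j (fun c => z' ((false, i), c)) fun c => z' ((true, j), c))
        then (1 : ℝ) else 0) = ((Finset.univ.filter fun q : Fin n × Fin n =>
        ∃ g ∈ I, ¬ Uni (N.first g) z
        (pos z (false, q.1) fun c => z' ((false, q.1), c))
        (pos z (true, q.2) fun c => z' ((true, q.2), c))
        (plant z q.1 q.2 (fun c => z' ((false, q.1), c)) fun c => z' ((true, q.2), c))).card :
          ℝ) := by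
    rw [← Finset.sum_boole, Fintype.sum_prod_type]
  rw [h3]
  by_cases h4 : EX N vec ∅ o I A B z z'
  · rw [if_pos h4]
    have h5 := Finset.card_le_univ (Finset.univ.filter fun q : Fin n × Fin n =>
        ∃ g ∈ I, ¬ Uni (N.first g) z
        (pos z (false, q.1) fun c => z' ((false, q.1), c))
        (pos z (true, q.2) fun c => z' ((true, q.2), c))
        (plant z q.1 q.2 (fun c => z' ((false, q.1), c)) fun c => z' ((true, q.2), c)))
    rw [Fintype.card_prod, Fintype.card_fin, ← _root_.sq] at h5
    have h6 : (((Finset.univ.filter fun q : Fin n × Fin n =>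
        ∃ g ∈ I, ¬ Uni (N.first g) z
        (pos z (false, q.1) fun c => z' ((false, q.1), c))
        (pos z (true, q.2) fun c => z' ((true, q.2), c))
        (plant z q.1 q.2 (fun c => z' ((false, q.1), c)) fun c => z' ((true, q.2), c))).card :
          ℕ) : ℝ) ≤ (n : ℝ) ^ 2 := by exact_mod_cast h5
    have h7 : (0 : ℝ) ≤ B := Nat.cast_nonneg _
    linarith
  · rw [if_neg h4, mul_zero, add_zero]
    unfold EX at h4
    push Not at h4
    have h5 : (Finset.univ.filter fun q : Fin n × Fin n =>
        ∃ g ∈ I, ¬ Uni (N.first g) z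
        (pos z (false, q.1) fun c => z' ((false, q.1), c))
        (pos z (true, q.2) fun c => z' ((true, q.2), c))
        (plant z q.1 q.2 (fun c => z' ((false, q.1), c)) fun c => z' ((true, q.2), c))).card ≤
        pf I (fun g (ρ : Bool × Fin n → Bool) => N.first g (bpt vec ∅ z z' ρ))
          (fun _ => false) := by
      refine Finset.card_le_card_of_injOn (fun q => (((false, q.1), (true, q.2)) :
        (Bool × Fin n) × (Bool × Fin n))) ?_ ?_
      · intro q hq
        obtain ⟨g, hg, h6⟩ := (Finset.mem_filter.1 (Finset.mem_coe.1 hq)).2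
        refine Finset.mem_coe.2 ((mem_bf _ _ _ _).2 ⟨by simp, g, hg, ?_⟩)
        rw [bpv_two, bpv_one, bpv_one, bpv_zero]
        exact h6
      · intro q _ q' _ h
        simp only [Prod.mk.injEq, true_and] at h
        exact Prod.ext h.1 h.2
    exact_mod_cast h5.trans h4.2

open Classical in
/-- one circuit, one input -/
theorem one_net (hk : 2 ≤ k) (N : Net ι (Co n D → Fin k) s T) (hin : ∀ i, DepOne (N.inp i))
    (o : Fin s) (I : Finset (Fin s)) (hI : ∀ g, g ∉ I → OneSided (N.val g)) (A B : ℕ)
    {s₁ G : ℕ} (hs₁ : 1 ≤ s₁)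
    (hG : s * (2 * (Fintype.card ι + s)) + (Fintype.card ι + s) ≤ G) (z : Co n D → Fin k) :
    (∑ i : Fin n, ∑ j : Fin n, avR fun u v : Str k D =>
      if N.val o (plant z i j u v) ≠ N.val o z then (1 : ℝ) else 0) ≤
      n * A + B + (n : ℝ) ^ 2 * errB k D s T s₁ G +
        3 * (n : ℝ) ^ 2 * pr fun z' : Co n D → Fin k => EX N vec ∅ o I A B z z' := by
  have hpt : ∀ i j : Fin n, (avR fun u v : Str k D =>
      if N.val o (plant z i j u v) ≠ N.val o z then (1 : ℝ) else 0) ≤
      (pr fun u : Fin D → Fin k => N.val o (pos z (false, i) u) ≠ N.val o z) +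
      (pr fun v : Fin D → Fin k => N.val o (pos z (true, j) v) ≠ N.val o z) +
      ((av fun u : Str k D => pr fun v : Str k D => ∃ g ∈ I,
        ¬ Uni (N.first g) z (pos z (false, i) u) (pos z (true, j) v) (plant z i j u v)) +
        errB k D s T s₁ G) := by
    intro i j
    have h1 : (avR fun u v : Str k D =>
        if N.val o (plant z i j u v) ≠ N.val o z then (1 : ℝ) else 0) ≤
        avR fun u v : Str k D => ((if N.val o (pos z (false, i) u) ≠ N.val o z
          then (1 : ℝ) else 0) + (if N.val o (pos z (true, j) v) ≠ N.val o z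
          then (1 : ℝ) else 0)) + if ∃ g, g ∈ I ∧ Hit N g z (pos z (false, i) u)
            (pos z (true, j) v) then (1 : ℝ) else 0 := by
      refine avR_mono hk fun u v _ => ?_
      by_cases ha : N.val o (pos z (false, i) u) ≠ N.val o z
      · rw [if_pos ha]
        split_ifs <;> norm_num
      by_cases hb : N.val o (pos z (true, j) v) ≠ N.val o z
      · rw [if_pos hb]
        split_ifs <;> norm_num
      rw [if_neg ha, if_neg hb]
      by_cases hc : N.val o (plant z i j u v) ≠ N.val o z
      · have hh : ∃ g, g ∈ I ∧ Hit N g z (pos z (false, i) u) (pos z (true, j) v) := by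
          refine exists_hit N (fun g => g ∈ I) (fun l => uni_inp (hin l) z i j u v)
            (fun g hg => uni_one (hI g hg) z i j u v) ⟨o, fun hu => hc ?_⟩
          rw [not_not] at ha hb
          rcases hu with ⟨h1, h2⟩ | ⟨h1, h2⟩
          · rw [← h2]
            exact hb
          · rw [← h2]
            exact ha
        rw [if_pos hc, if_pos hh]
        norm_num
      · rw [if_neg hc]
        split_ifs <;> norm_num
    refine h1.trans ?_
    rw [avR_add, avR_add]
    have h2 : (avR fun (u : Str k D) (_ : Str k D) =>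
        if N.val o (pos z (false, i) u) ≠ N.val o z then (1 : ℝ) else 0) =
        pr fun u : Fin D → Fin k => N.val o (pos z (false, i) u) ≠ N.val o z := by
      rw [avR_left hk fun u => if N.val o (pos z (false, i) u) ≠ N.val o z then (1 : ℝ) else 0]
      unfold pr
      exact av_congr fun u => by congr
    have h3 : (avR fun (_ : Str k D) (v : Str k D) =>
        if N.val o (pos z (true, j) v) ≠ N.val o z then (1 : ℝ) else 0) =
        pr fun v : Fin D → Fin k => N.val o (pos z (true, j) v) ≠ N.val o z := by
      rw [avR_right hk fun v => if N.val o (pos z (true, j) v) ≠ N.val o z then (1 : ℝ) else 0]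
      unfold pr
      exact av_congr fun u => by congr
    rw [h2, h3]
    have h4' := side2 hk N hin z z z i j (fun g => g ∈ I) hs₁ hG
    have h4 : (avR fun u v : Str k D => if ∃ g, g ∈ I ∧ Hit N g z (pos z (false, i) u)
        (pos z (true, j) v) then (1 : ℝ) else 0) ≤ (av fun u : Str k D => pr fun v : Str k D =>
        ∃ g, g ∈ I ∧ Hit N g z (pos z (false, i) u) (pos z (true, j) v)) +
        errB k D s T s₁ G := le_trans (le_of_eq (avR_inst _ _ _)) h4'
    have h5 : (av fun u : Str k D => pr fun v : Str k D => ∃ g, g ∈ I ∧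
        Hit N g z (pos z (false, i) u) (pos z (true, j) v)) ≤
        av fun u : Str k D => pr fun v : Str k D => ∃ g ∈ I,
        ¬ Uni (N.first g) z (pos z (false, i) u) (pos z (true, j) v) (plant z i j u v) := by
      refine av_mono fun u => pr_mono fun v h => ?_
      obtain ⟨g, hg, hh⟩ := exists_first_of_hit N (fun g => g ∈ I)
        (fun l => uni_inp (hin l) z i j u v) (fun g hg => uni_one (hI g hg) z i j u v) h
      exact ⟨g, hg, hh⟩
    linarith
  have hsum : (∑ i : Fin n, ∑ j : Fin n, avR fun u v : Str k D =>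
      if N.val o (plant z i j u v) ≠ N.val o z then (1 : ℝ) else 0) ≤
      ∑ i : Fin n, ∑ j : Fin n,
      ((pr fun u : Fin D → Fin k => N.val o (pos z (false, i) u) ≠ N.val o z) +
      (pr fun v : Fin D → Fin k => N.val o (pos z (true, j) v) ≠ N.val o z) +
      ((av fun u : Str k D => pr fun v : Str k D => ∃ g ∈ I,
        ¬ Uni (N.first g) z (pos z (false, i) u) (pos z (true, j) v) (plant z i j u v)) +
        errB k D s T s₁ G)) :=
    Finset.sum_le_sum fun i _ => Finset.sum_le_sum fun j _ => hpt i j
  refine hsum.trans ?_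
  have h1 := single (by omega : 1 ≤ k) N o I A B z
  have h2 := pairs (by omega : 1 ≤ k) N o I A B z
  rw [Fintype.sum_prod_type, Fintype.sum_bool] at h1
  simp only [Finset.sum_add_distrib, Finset.sum_const, Finset.card_univ, Fintype.card_fin,
    nsmul_eq_mul, ← Finset.mul_sum]
  have hn : (0 : ℝ) ≤ n := Nat.cast_nonneg _
  have h3 := mul_le_mul_of_nonneg_left h1 hn
  nlinarith [h3, h2]

/-- a family of circuits -/
theorem law (hk : 2 ≤ k) {W : ℕ} (N : Fin W → Net ι (Co n D → Fin k) s T)
    (hin : ∀ w i, DepOne ((N w).inp i)) (o : Fin W → Fin s) (I : Fin W → Finset (Fin s))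
    (hI : ∀ w g, g ∉ I w → OneSided ((N w).val g)) (A B : ℕ) {s₁ G : ℕ} (hs₁ : 1 ≤ s₁)
    (hG : s * (2 * (Fintype.card ι + s)) + (Fintype.card ι + s) ≤ G) {δ : ℝ}
    (hex : ∀ w, (av fun z : Co n D → Fin k => pr fun z' : Co n D → Fin k =>
      EX (N w) vec ∅ (o w) (I w) A B z z') ≤ δ) (hn : 1 ≤ n) :
    (n : ℝ) ^ 2 * (pr fun z : Co n D → Fin k => ∃ w, (N w).val (o w) z = true) ≤
      (n : ℝ) ^ 2 * (pr fun τ : PTest n k D n 1 =>
        ∃ w, (N w).val (o w) (τ.y fun a _ => a) = true) +
      (n * A + B + (n : ℝ) ^ 2 * errB k D s T s₁ G) *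
        (pr fun z : Co n D → Fin k => ∃ w, (N w).val (o w) z = true) +
      3 * (n : ℝ) ^ 2 * (W * δ) := by
  classical
  have hX : Nonempty (Fin k) := ⟨⟨0, by omega⟩⟩
  set κ : ℝ := n * A + B + (n : ℝ) ^ 2 * errB k D s T s₁ G with hκ
  have hpt : ∀ z : Co n D → Fin k,
      (n : ℝ) ^ 2 * (if ∃ w, (N w).val (o w) z = true then (1 : ℝ) else 0) ≤
      (∑ i : Fin n, ∑ j : Fin n, avR fun u v : Str k D =>
        if ∃ w, (N w).val (o w) (plant z i j u v) = true then (1 : ℝ) else 0) +
      κ * (if ∃ w, (N w).val (o w) z = true then (1 : ℝ) else 0) +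
      3 * (n : ℝ) ^ 2 * ∑ w, pr fun z' : Co n D → Fin k =>
        EX (N w) vec ∅ (o w) (I w) A B z z' := by
    intro z
    have hpos : (0 : ℝ) ≤ ∑ i : Fin n, ∑ j : Fin n, avR fun u v : Str k D =>
        if ∃ w, (N w).val (o w) (plant z i j u v) = true then (1 : ℝ) else 0 := by
      refine Finset.sum_nonneg fun i _ => Finset.sum_nonneg fun j _ => ?_
      refine le_of_eq_of_le (avR_const hk (D := D) 0).symm (avR_mono hk fun u v _ => ?_)
      split_ifs <;> norm_num
    have hpos2 : (0 : ℝ) ≤ ∑ w, pr fun z' : Co n D → Fin k =>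
        EX (N w) vec ∅ (o w) (I w) A B z z' := Finset.sum_nonneg fun w _ => pr_nonneg _
    by_cases hz : ∃ w, (N w).val (o w) z = true
    · rw [if_pos hz, mul_one, mul_one]
      obtain ⟨w, hw⟩ := hz
      have h1 := one_net hk (N w) (hin w) (o w) (I w) (hI w) A B hs₁ hG z
      have h2 : (pr fun z' : Co n D → Fin k => EX (N w) vec ∅ (o w) (I w) A B z z') ≤
          ∑ w, pr fun z' : Co n D → Fin k => EX (N w) vec ∅ (o w) (I w) A B z z' :=
        Finset.single_le_sum (f := fun w => pr fun z' : Co n D → Fin k =>
          EX (N w) vec ∅ (o w) (I w) A B z z') (fun w _ => pr_nonneg _) (Finset.mem_univ w)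
      have h3 : (n : ℝ) ^ 2 ≤ (∑ i : Fin n, ∑ j : Fin n, avR fun u v : Str k D =>
          if ∃ w, (N w).val (o w) (plant z i j u v) = true then (1 : ℝ) else 0) +
          ∑ i : Fin n, ∑ j : Fin n, avR fun u v : Str k D =>
          if (N w).val (o w) (plant z i j u v) ≠ (N w).val (o w) z then (1 : ℝ) else 0 := by
        rw [← Finset.sum_add_distrib]
        have h4 : ∀ i : Fin n, (n : ℝ) ≤ (∑ j : Fin n, avR fun u v : Str k D =>
            if ∃ w, (N w).val (o w) (plant z i j u v) = true then (1 : ℝ) else 0) +
            ∑ j : Fin n, avR fun u v : Str k D =>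
            if (N w).val (o w) (plant z i j u v) ≠ (N w).val (o w) z then (1 : ℝ) else 0 := by
          intro i
          rw [← Finset.sum_add_distrib]
          have h5 : ∀ j : Fin n, (1 : ℝ) ≤ (avR fun u v : Str k D =>
              if ∃ w, (N w).val (o w) (plant z i j u v) = true then (1 : ℝ) else 0) +
              avR fun u v : Str k D =>
              if (N w).val (o w) (plant z i j u v) ≠ (N w).val (o w) z
                then (1 : ℝ) else 0 := by
            intro j
            rw [← avR_add]
            refine le_of_eq_of_le (avR_const hk (D := D) 1).symm (avR_mono hk fun u v _ => ?_)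
            by_cases h6 : (N w).val (o w) (plant z i j u v) = true
            · rw [if_pos (⟨w, h6⟩ : ∃ w, (N w).val (o w) (plant z i j u v) = true)]
              split_ifs <;> norm_num
            · rw [if_pos (show (N w).val (o w) (plant z i j u v) ≠ (N w).val (o w) z by
                rw [hw]
                exact h6)]
              split_ifs <;> norm_num
          have h7 := Finset.sum_le_sum fun (j : Fin n) (_ : j ∈ Finset.univ) => h5 j
          simpa using h7
        have h8 := Finset.sum_le_sum fun (i : Fin n) (_ : i ∈ Finset.univ) => h4 i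
        refine le_trans (le_of_eq ?_) h8
        simp [_root_.sq]
      have h9 : (0 : ℝ) ≤ (n : ℝ) ^ 2 := by positivity
      have h10 := mul_le_mul_of_nonneg_left h2 (by positivity : (0 : ℝ) ≤ 3 * (n : ℝ) ^ 2)
      linarith
    · rw [if_neg hz, mul_zero, mul_zero]
      have : (0 : ℝ) ≤ 3 * (n : ℝ) ^ 2 * ∑ w, pr fun z' : Co n D → Fin k =>
        EX (N w) vec ∅ (o w) (I w) A B z z' := by positivity
      linarith
  have h1 : (n : ℝ) ^ 2 * (av fun z : Co n D → Fin k =>
        if ∃ w, (N w).val (o w) z = true then (1 : ℝ) else 0) ≤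
      (av fun z : Co n D → Fin k => ∑ i : Fin n, ∑ j : Fin n, avR fun u v : Str k D =>
        if ∃ w, (N w).val (o w) (plant z i j u v) = true then (1 : ℝ) else 0) +
      κ * (av fun z : Co n D → Fin k => if ∃ w, (N w).val (o w) z = true then (1 : ℝ) else 0) +
      3 * (n : ℝ) ^ 2 * ∑ w, av fun z : Co n D → Fin k => pr fun z' : Co n D → Fin k =>
        EX (N w) vec ∅ (o w) (I w) A B z z' := by
    rw [← av_sum, ← av_mul_left, ← av_mul_left, ← av_mul_left, ← av_add, ← av_add]
    exact av_mono hpt
  have h2 := pr_ptest (n := n) (k := k) (D := D) hn le_rfl hk (fun (a : Fin n) (_ : Fin 1) => a)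
    fun y => ∃ w, (N w).val (o w) y = true
  have h3 : (av fun z : Co n D → Fin k => ∑ i : Fin n, ∑ j : Fin n, avR fun u v : Str k D =>
      if ∃ w, (N w).val (o w) (plant z i j u v) = true then (1 : ℝ) else 0) =
      (n : ℝ) ^ 2 * (pr fun τ : PTest n k D n 1 =>
        ∃ w, (N w).val (o w) (τ.y fun a _ => a) = true) := by
    rw [mul_one] at h2
    rw [h2, av_sum]
    refine Finset.sum_congr rfl fun i _ => ?_
    rw [av_sum]
    refine Finset.sum_congr rfl fun j _ => ?_
    rw [Fintype.sum_unique, Fintype.sum_unique]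
    exact av_congr fun z => avR_inst _ _ _
  have h4 : (∑ w, av fun z : Co n D → Fin k => pr fun z' : Co n D → Fin k =>
      EX (N w) vec ∅ (o w) (I w) A B z z') ≤ W * δ := by
    refine (Finset.sum_le_sum fun w _ => hex w).trans (le_of_eq ?_)
    simp
  have h5 : (av fun z : Co n D → Fin k => if ∃ w, (N w).val (o w) z = true
      then (1 : ℝ) else 0) = pr fun z : Co n D → Fin k => ∃ w, (N w).val (o w) z = true := by
    unfold pr
    exact av_congr fun z => by congr
  rw [h3, h5] at h1
  have h6 := mul_le_mul_of_nonneg_left h4 (by positivity : (0 : ℝ) ≤ 3 * (n : ℝ) ^ 2)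
  linarith

end

end Pool.Agent.H91.AC
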